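import Pool.Agent.GolodShaf.Forcing

/-!
# MP_af5125_al : every Golod-Shafarevich pro-`p` group is SQ-universal
-/

namespace Pool.Agent.Results.MP_af5125_al.SQUniversal

open GolodShaf

universe u v

/-- The `n`-th term of the Zassenhaus filtration of a pro-`p` group `F`: the elements `g` such
that, for every open normal subgroup `U` of `F`, the image of `g - 1` in the group algebra
`F_p[F/U]` lies in the `n`-th power of the augmentation ideal of `F_p[F/U]`
(`GolodShaf.augPow p Γ n` is the span of all products of at least `n` elements `γ - 1`,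
`γ ∈ Γ`, in `F_p[Γ]`, and `GolodShaf.gr p γ` is the basis element `γ` of `F_p[Γ]`). -/
def zassenhaus (p : ℕ) (F : Type u) [Group F] [TopologicalSpace F] (n : ℕ) : Set F :=
  {g | ∀ (U : Subgroup F) [U.Normal], IsOpen (U : Set F) →
    gr p (QuotientGroup.mk g : F ⧸ U) - 1 ∈ augPow p (F ⧸ U) n}

/-- A Golod-Shafarevich pro-`p` group: a topological group isomorphic to `F / N`, where `F` is
the free pro-`p` group on a finite family `x`, `N` is the closed normal subgroup generated by a
set `R` of nontrivial elements of `F`, the degree `deg r` of `r ∈ R` is the largest `n` with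
`r` in the `n`-th term of the Zassenhaus filtration, and `1 - |X| t + ∑_{r ∈ R} t ^ (deg r) < 0`
for some real `t` with `0 < t < 1` for which the sum converges. -/
def IsGolodShafarevich (p : ℕ) (G : Type u) [Group G] [TopologicalSpace G] : Prop :=
  ∃ (X : Type u) (_ : Fintype X) (F : Type u) (_ : Group F) (_ : TopologicalSpace F) (x : X → F)
    (R : Set F) (deg : R → ℕ) (t : ℝ) (N : Subgroup F) (_ : N.Normal),
    IsFreeProP p x ∧
    (∀ r : R, (r : F) ≠ 1 ∧ IsGreatest {n : ℕ | (r : F) ∈ zassenhaus p F n} (deg r)) ∧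
    0 < t ∧ t < 1 ∧ Summable (fun r : R => t ^ (deg r)) ∧
    1 - (Fintype.card X : ℝ) * t + ∑' r : R, t ^ (deg r) < 0 ∧
    (N : Set F) = closure (Subgroup.normalClosure R : Set F) ∧
    Nonempty ((F ⧸ N) ≃ₜ* G)

/-- `G` is SQ-universal: every countably based pro-`p` group `P` has an injective continuous
homomorphism into a quotient `G / K` by a closed normal subgroup `K`. -/
def IsSQUniversal (p : ℕ) (G : Type u) [Group G] [TopologicalSpace G] : Prop :=
  ∀ (P : Type v) [Group P] [TopologicalSpace P], IsProP p P →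
    (nhds (1 : P)).IsCountablyGenerated →
    ∃ (K : Subgroup G) (_ : K.Normal), IsClosed (K : Set G) ∧
      ∃ f : P →* G ⧸ K, Continuous f ∧ Function.Injective f

lemma isFreeProP_reindex {p : ℕ} {X : Type u} {Y : Type} {F : Type u} [Group F]
    [TopologicalSpace F] {x : X → F} (hF : IsFreeProP p x) (e : Y ≃ X) :
    IsFreeProP p (fun y => x (e y)) := by
  refine ⟨hF.1, ?_⟩
  intro H _ _ hH f
  obtain ⟨φ, ⟨h1, h2⟩, h3⟩ := hF.2 H hH (fun i => f (e.symm i))
  refine ⟨φ, ⟨h1, fun y => ?_⟩, ?_⟩
  · rw [h2, e.symm_apply_apply]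
  · rintro ψ ⟨h4, h5⟩
    apply h3
    refine ⟨h4, fun i => ?_⟩
    have := h5 (e.symm i)
    simpa using this

/-- **Every Golod-Shafarevich pro-`p` group is SQ-universal.** -/
theorem result {p : ℕ} (hp : p.Prime) {G : Type u} [Group G] [TopologicalSpace G]
    (hG : IsGolodShafarevich p G) : IsSQUniversal.{u, v} p G := by
  have : Fact p.Prime := ⟨hp⟩
  obtain ⟨X, _, F, _, _, x, R, deg, t, N, _, hF, hdeg, ht0, ht1, hsum, hGS, hN, ⟨e⟩⟩ := hG
  intro P _ _ hP hPc
  have := hF.1.topGroup
  have hF' := isFreeProP_reindex hF (Fintype.equivFin X).symm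
  have hdeg' : ∀ r : R, (r : F) ∈ DF p (OpN F) (deg r) := by
    intro r V hV _
    exact (hdeg r).2.1 V hV.2
  have hcard : (Fintype.card (Fin (Fintype.card X)) : ℝ) = Fintype.card X := by
    rw [Fintype.card_fin]
  obtain ⟨K, hKn, hKc, hRK, g, hg, hgi⟩ := main_embedding
    (x := fun y => x ((Fintype.equivFin X).symm y)) hF' R deg hdeg' ht0 ht1 hsum (by rw [hcard]; exact hGS) hP hPc
  have hNK : N ≤ K := by
    intro g hg
    have h1 : (g : F) ∈ closure (Subgroup.normalClosure R : Set F) := by
      rw [← hN]; exact hg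
    have h2 : (Subgroup.normalClosure R : Set F) ⊆ K := Subgroup.normalClosure_le_normal hRK
    exact (closure_minimal h2 hKc) h1
  exact transfer_quotient N K hNK hKc e g hg hgi

end Pool.Agent.Results.MP_af5125_al.SQUniversal
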